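import Mathlib

set_option autoImplicit false

namespace Pool.Agent.Results.MP_081fbf_lc.Terminates

inductive L
  | a | b | c | d
  deriving DecidableEq

open L

def Step (T : List (List L × List L)) (x y : List L) : Prop :=
  ∃ u v : List L, ∃ p ∈ T, x = u ++ p.1 ++ v ∧ y = u ++ p.2 ++ v

def R : List (List L × List L) :=
  [([a, d], [d, b]), ([a], [b, b, b]), ([d], []), ([a], []), ([b, c], [c, d, d]),
    ([a, c], [b, b, c, d])]

def S : List (List L × List L) := [([b, d, b], [a, d]), ([a, d], [b, d, b])]

def W : Bool → ℕ → List L → ℕ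
  | _, _, [] => 0
  | _, m, a :: x => 4 * m + W true m x
  | _, m, b :: x => m + W true m x
  | _, _, c :: x => W false 1 x
  | t, m, d :: x => W t (if t then 3 * m else m) x

theorem mono (x : List L) : ∀ t t' m m', (t = true → t' = true) → m ≤ m' → W t m x ≤ W t' m' x := by
  induction x with
  | nil => intros; rfl
  | cons h x ih =>
    intro t t' m m' h1 h2
    cases h <;> simp only [W]
    · have := ih true true m m' id h2
      omega
    · have := ih true true m m' id h2
      omega
    · rfl
    · refine ih _ _ _ _ h1 ?_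
      cases t <;> cases t' <;> simp at h1 ⊢ <;> omega

theorem pre (k : ℕ) (x y : List L) (h : ∀ t m, 0 < m → W t m y + k ≤ W t m x) (u : List L) :
    ∀ t m, 0 < m → W t m (u ++ y) + k ≤ W t m (u ++ x) := by
  induction u with
  | nil => exact h
  | cons e u ih =>
    intro t m hm
    cases e <;> simp only [List.cons_append, W]
    · have := ih true m hm
      omega
    · have := ih true m hm
      omega
    · exact ih _ _ one_pos
    · exact ih _ _ (by split_ifs <;> omega)

def mu (x : List L) : ℕ ×ₗ ℕ := toLex (W false 1 x, x.count d)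

theorem stepS {x y : List L} (h : Step S x y) : mu y ≤ mu x := by
  obtain ⟨u, v, p, hp, rfl, rfl⟩ := h
  simp only [S, List.mem_cons, List.not_mem_nil, or_false] at hp
  rw [mu, mu, Prod.Lex.toLex_le_toLex, List.append_assoc, List.append_assoc]
  rcases hp with rfl | rfl
  · have := pre 0 ([b, d, b] ++ v) ([a, d] ++ v) (fun t m _ => by simp [W]; omega) u false 1 one_pos
    simp only [List.count_append] at this ⊢
    simp at this ⊢
    omega
  · have := pre 0 ([a, d] ++ v) ([b, d, b] ++ v) (fun t m _ => by simp [W]; omega) u false 1 one_pos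
    simp only [List.count_append] at this ⊢
    simp at this ⊢
    omega

theorem stepR {x y : List L} (h : Step R x y) : mu y < mu x := by
  obtain ⟨u, v, p, hp, rfl, rfl⟩ := h
  simp only [R, List.mem_cons, List.not_mem_nil, or_false] at hp
  rw [mu, mu, Prod.Lex.toLex_lt_toLex, List.append_assoc, List.append_assoc]
  rcases hp with rfl | rfl | rfl | rfl | rfl | rfl
  · refine .inl (pre 1 _ _ (fun t m _ => ?_) u false 1 one_pos)
    have := mono v true true (if t then 3 * m else m) (3 * m) id (by split_ifs <;> omega)
    simp only [List.cons_append, List.nil_append, W, if_true]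
    split_ifs at this ⊢ <;> omega
  · refine .inl (pre 1 _ _ (fun t m _ => ?_) u false 1 one_pos)
    simp only [List.cons_append, List.nil_append, W]
    omega
  · have := pre 0 ([d] ++ v) ([] ++ v) (fun t m _ => by
      simpa [W] using mono v t t m _ id (by split_ifs <;> omega)) u false 1 one_pos
    simp only [List.count_append] at this ⊢
    simp at this ⊢
    omega
  · refine .inl (pre 1 _ _ (fun t m _ => ?_) u false 1 one_pos)
    have := mono v t true m m (fun _ => rfl) le_rfl
    simp only [List.cons_append, List.nil_append, W]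
    omega
  · refine .inl (pre 1 _ _ (fun t m _ => ?_) u false 1 one_pos)
    simp [W]
    omega
  · refine .inl (pre 1 _ _ (fun t m _ => ?_) u false 1 one_pos)
    simp [W]
    omega

theorem result : ¬ ∃ x : ℕ → List L,
    (∀ n, Step R (x n) (x (n + 1)) ∨ Step S (x n) (x (n + 1))) ∧
    ∀ N, ∃ n, N ≤ n ∧ Step R (x n) (x (n + 1)) := by
  rintro ⟨x, h1, h2⟩
  have anti : Antitone fun n => mu (x n) := antitone_nat_of_succ_le fun n =>
    (h1 n).elim (fun h => (stepR h).le) stepS
  obtain ⟨_, ⟨N, rfl⟩, hN⟩ := wellFounded_lt.has_min (Set.range fun n => mu (x n)) ⟨_, 0, rfl⟩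
  obtain ⟨n, h3, h4⟩ := h2 N
  exact hN _ ⟨n + 1, rfl⟩ ((stepR h4).trans_le (anti h3))

end Pool.Agent.Results.MP_081fbf_lc.Terminates
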